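import Mathlib

namespace Pool.Agent.Results.MP_b19ca0_gt.NotNPC

open Real Filter Topology Set

/-- Squared Euclidean norm. -/
def nsq (x : ℝ × ℝ) : ℝ := x.1 ^ 2 + x.2 ^ 2

/-- The open unit disk. -/
def InM (x : ℝ × ℝ) : Prop := nsq x < 1

/-- The two roots `t` (for `σ = 1, -1`) of `|x + t (y - x)|² = 1`. -/
noncomputable def root (σ : ℝ) (x y : ℝ × ℝ) : ℝ :=
  (-(x.1 * (y - x).1 + x.2 * (y - x).2) +
    σ * √((x.1 * (y - x).1 + x.2 * (y - x).2) ^ 2 + nsq (y - x) * (1 - nsq x))) / nsq (y - x)

/-- Hilbert metric; in the affine coordinate `t` on the line, `x` is `t = 0` and `y` is `t = 1`. -/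
noncomputable def h (x y : ℝ × ℝ) : ℝ :=
  if x = y then 0 else
    |Real.log (((0 - root (-1) x y) * (1 - root 1 x y)) / ((0 - root 1 x y) * (1 - root (-1) x y)))|

/-- `d = h + m`. -/
noncomputable def d (x y : ℝ × ℝ) : ℝ := h x y + (|x.1 - y.1| + |x.2 - y.2|)

theorem h_eq (x1 x2 y1 y2 α β : ℝ) (hα : α < 0) (hβ : 1 < β)
    (ha : (x1 + α * (y1 - x1)) ^ 2 + (x2 + α * (y2 - x2)) ^ 2 = 1)
    (hb : (x1 + β * (y1 - x1)) ^ 2 + (x2 + β * (y2 - x2)) ^ 2 = 1)
    (hA : 0 < (y1 - x1) ^ 2 + (y2 - x2) ^ 2) :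
    h (x1, x2) (y1, y2) = Real.log ((1 - α) * β / ((-α) * (β - 1))) := by
  have hne : (x1, x2) ≠ (y1, y2) := by
    intro e; simp only [Prod.mk.injEq] at e; rw [e.1, e.2] at hA; simp at hA
  set A := (y1 - x1) ^ 2 + (y2 - x2) ^ 2 with hAd
  set B := x1 * (y1 - x1) + x2 * (y2 - x2) with hBd
  have e1 : (β - α) * (A * (α + β) + 2 * B) = 0 := by rw [hAd, hBd]; linear_combination hb - ha
  have e2 : B = -(A * (α + β)) / 2 := by
    rcases mul_eq_zero.1 e1 with e | e <;> linarith
  have e3 : 1 - (x1 ^ 2 + x2 ^ 2) = -(A * (α * β)) := by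
    have : 1 - (x1 ^ 2 + x2 ^ 2) = A * α ^ 2 + 2 * B * α := by
      rw [hAd, hBd]; linear_combination -ha
    rw [this, e2]; ring
  have e4 : √(B ^ 2 + A * (1 - (x1 ^ 2 + x2 ^ 2))) = A * (β - α) / 2 := by
    rw [e3, e2, show (-(A * (α + β)) / 2) ^ 2 + A * -(A * (α * β)) = (A * (β - α) / 2) ^ 2 by ring]
    exact Real.sqrt_sq (by have : 0 < β - α := by linarith
                           positivity)
  have r1 : root 1 (x1, x2) (y1, y2) = β := by
    simp only [root, nsq, Prod.fst_sub, Prod.snd_sub]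
    rw [← hAd, ← hBd, e4, e2]; field_simp; ring
  have r2 : root (-1) (x1, x2) (y1, y2) = α := by
    simp only [root, nsq, Prod.fst_sub, Prod.snd_sub]
    rw [← hAd, ← hBd, e4, e2]; field_simp; ring
  have p1 : 0 < -α := by linarith
  have p2 : 0 < β - 1 := by linarith
  rw [h, if_neg hne, r1, r2,
    show (0 - α) * (1 - β) / ((0 - β) * (1 - α)) = ((1 - α) * β / ((-α) * (β - 1)))⁻¹ by
      rw [inv_div, div_eq_div_iff (by nlinarith) (by nlinarith)]; ring,
    Real.log_inv, abs_neg, abs_of_nonneg]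
  apply Real.log_nonneg
  rw [le_div_iff₀ (mul_pos p1 p2)]; nlinarith

theorem h_vert (u s w : ℝ) (hs : 0 < s) (hw : s < w) (e : w ^ 2 = 1 - u ^ 2) :
    d (u, s) (u, -s) = 2 * Real.log ((w + s) / (w - s)) + 2 * s := by
  have hw' : 0 < w - s := by linarith
  rw [d, h_eq u s u (-s) ((s - w) / (2 * s)) ((s + w) / (2 * s))
    (div_neg_of_neg_of_pos (by linarith) (by linarith))
    (by rw [lt_div_iff₀ (by linarith)]; linarith)
    (by field_simp; nlinarith) (by field_simp; nlinarith) (by nlinarith)]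
  have : (1 - (s - w) / (2 * s)) * ((s + w) / (2 * s)) /
      (-((s - w) / (2 * s)) * ((s + w) / (2 * s) - 1)) = ((w + s) / (w - s)) ^ 2 := by
    have e1 : 1 - (s - w) / (2 * s) = (w + s) / (2 * s) := by field_simp; ring
    have e2 : (s + w) / (2 * s) - 1 = (w - s) / (2 * s) := by field_simp; ring
    have e3 : -((s - w) / (2 * s)) = (w - s) / (2 * s) := by ring
    rw [e1, e2, e3]; field_simp; ring
  rw [this, Real.log_pow]
  simp only [sub_self, abs_zero, sub_neg_eq_add]
  rw [abs_of_pos (by linarith)]; push_cast; ring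

noncomputable def l : ℝ := 2500 / 999999
noncomputable def k : ℝ := 1000004250001 / 999998000001
noncomputable def P : ℝ := 8000002 / 4999995
noncomputable def M : ℝ := 2000008 / 4999995

/-- distance along the chord between parameters `s < t`. -/
theorem d_chord (σ e s t : ℝ) (hσ : σ ^ 2 = 1) (he : 0 < e) (hs : 0 ≤ s) (hst : s < t)
    (ht : t * (k * e) < M) :
    d (3 / 5 + s * e, σ * (s * (l * e))) (3 / 5 + t * e, σ * (t * (l * e))) =
      Real.log ((t * (k * e) + P) * (M - s * (k * e)) / ((s * (k * e) + P) * (M - t * (k * e)))) +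
        (t - s) * (1 + l) * e := by
  have hk : 0 < k := by norm_num [k]
  have hP : 0 < P := by norm_num [P]
  have hl : 0 < l := by norm_num [l]
  have hu : 0 < k * e := mul_pos hk he
  have hts : 0 < t - s := by linarith
  have hsu : 0 ≤ s * (k * e) := mul_nonneg hs hu.le
  have hd : 0 < (t - s) * (k * e) := mul_pos hts hu
  have hM : 0 < M - t * (k * e) := by linarith
  rw [d, h_eq _ _ _ _ ((-P - s * (k * e)) / ((t - s) * (k * e))) ((M - s * (k * e)) / ((t - s) * (k * e)))
    (div_neg_of_neg_of_pos (by linarith) hd) (by rw [lt_div_iff₀ hd]; nlinarith) ?_ ?_ ?_]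
  · congr 1
    · congr 1
      have : s * (k * e) + P ≠ 0 := by linarith
      have : -P - s * (k * e) ≠ 0 := by linarith
      have : M - s * (k * e) - (t - s) * (k * e) ≠ 0 := by nlinarith
      have e1 : 1 - (-P - s * (k * e)) / ((t - s) * (k * e)) =
        (t * (k * e) + P) / ((t - s) * (k * e)) := by field_simp; ring
      have e2 : (M - s * (k * e)) / ((t - s) * (k * e)) - 1 =
        (M - t * (k * e)) / ((t - s) * (k * e)) := by field_simp; ring
      have e3 : -((-P - s * (k * e)) / ((t - s) * (k * e))) =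
        (s * (k * e) + P) / ((t - s) * (k * e)) := by ring
      rw [e1, e2, e3]; field_simp
    · have hσ' : |σ| = 1 := by
        have : |σ| ^ 2 = 1 := by rw [sq_abs, hσ]
        nlinarith [abs_nonneg σ]
      simp only
      rw [show 3 / 5 + s * e - (3 / 5 + t * e) = -((t - s) * e) by ring,
        show σ * (s * (l * e)) - σ * (t * (l * e)) = -(σ * ((t - s) * (l * e))) by ring,
        abs_neg, abs_neg, abs_mul σ, hσ', abs_of_pos (mul_pos hts he),
        abs_of_pos (mul_pos hts (mul_pos hl he))]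
      ring
  · have e1 : 3 / 5 + s * e + (-P - s * (k * e)) / ((t - s) * (k * e)) * (3 / 5 + t * e - (3 / 5 + s * e))
        = 3 / 5 - P / k := by field_simp; ring
    have e2 : σ * (s * (l * e)) + (-P - s * (k * e)) / ((t - s) * (k * e)) *
        (σ * (t * (l * e)) - σ * (s * (l * e))) = σ * (-(l * P / k)) := by field_simp; ring
    rw [e1, e2, mul_pow, hσ]; norm_num [P, k, l]
  · have e1 : 3 / 5 + s * e + (M - s * (k * e)) / ((t - s) * (k * e)) * (3 / 5 + t * e - (3 / 5 + s * e))
        = 3 / 5 + M / k := by field_simp; ring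
    have e2 : σ * (s * (l * e)) + (M - s * (k * e)) / ((t - s) * (k * e)) *
        (σ * (t * (l * e)) - σ * (s * (l * e))) = σ * (l * M / k) := by field_simp; ring
    rw [e1, e2, mul_pow, hσ]; norm_num [M, k, l]
  · have : 0 < (3 / 5 + t * e - (3 / 5 + s * e)) ^ 2 := by
      rw [show 3 / 5 + t * e - (3 / 5 + s * e) = (t - s) * e by ring]; positivity
    positivity

theorem ev1 : ∀ᶠ e in 𝓝 (0 : ℝ), (0 : ℝ) < (25881142988364736237675371380923/3124984375031249968750015624996875) * e ^ 0 + (743427192379220371498032206926602860342045407/624995625013124978125021874986875004374999375) * e ^ 1 + (3923290393092146862253722733334194770917691749/7142807143007142607143107142707142907142850000) * e ^ 2 + (-450563312135151894983637894240990469769493654989879/2857120000079999840000199999840000079999977142860000) * e ^ 3 + (-513285599259840700273060744216036318395852276732407/4081600000114285485714571428342857257142824489800000) * e ^ 4 + (-4010048130190103975915490592941504752354359252499/233234285720816313469404081619591843265304256560000)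 * e ^ 5 :=
  ContinuousAt.eventually_lt continuousAt_const (by fun_prop) (by norm_num)

theorem ev2 : ∀ᶠ e in 𝓝 (0 : ℝ), (0 : ℝ) < (11999983/499999500) * e ^ 0 + (-17291947/3571425) * e ^ 1 + (-851149297850851/457141942857600) * e ^ 2 + (2979997/11428560) * e ^ 3 :=
  ContinuousAt.eventually_lt continuousAt_const (by fun_prop) (by norm_num)

theorem ev3 (r : ℝ) (hr : 0 < r) : ∀ᶠ e in 𝓝 (0 : ℝ),
    Real.log ((1 * (k * e) + P) * (M - 0 * (k * e)) / ((0 * (k * e) + P) * (M - 1 * (k * e)))) +
      (1 - 0) * (1 + l) * e < r := by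
  refine ContinuousAt.eventually_lt ?_ continuousAt_const ?_
  · refine ContinuousAt.add (ContinuousAt.log ?_ ?_) (by fun_prop)
    · exact ContinuousAt.div (by fun_prop) (by fun_prop) (by norm_num [P, M])
    · norm_num [P, M]
  · norm_num [P, M]; exact hr

theorem mid (e : ℝ) (he : 0 < e) (he' : e < 1 / 10) (h1 : (0 : ℝ) < (25881142988364736237675371380923/3124984375031249968750015624996875) * e ^ 0 + (743427192379220371498032206926602860342045407/624995625013124978125021874986875004374999375) * e ^ 1 + (3923290393092146862253722733334194770917691749/7142807143007142607143107142707142907142850000) * e ^ 2 + (-450563312135151894983637894240990469769493654989879/2857120000079999840000199999840000079999977142860000) * e ^ 3 + (-513285599259840700273060744216036318395852276732407/4081600000114285485714571428342857257142824489800000) * e ^ 4 + (-4010048130190103975915490592941504752354359252499/233234285720816313469404081619591843265304256560000) * e ^ 5) :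
    ∃ τ, 1 / 2 + 7 / 40 * e < τ ∧ τ < 1 ∧
      Real.log ((τ * (k * e) + P) * (M - 0 * (k * e)) / ((0 * (k * e) + P) * (M - τ * (k * e)))) +
        (τ - 0) * (1 + l) * e =
      Real.log ((1 * (k * e) + P) * (M - τ * (k * e)) / ((τ * (k * e) + P) * (M - 1 * (k * e)))) +
        (1 - τ) * (1 + l) * e := by
  have hk : 0 < k := by norm_num [k]
  have hP : 0 < P := by norm_num [P]
  have hl : 0 < l := by norm_num [l]
  have hu : 0 < k * e := mul_pos hk he
  have huM : k * e < M := by norm_num [k, M]; linarith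
  have hM0 : 0 < M := by norm_num [M]
  set τ0 : ℝ := 1 / 2 + 7 / 40 * e with hτ0
  let Φ : ℝ → ℝ := fun τ =>
    Real.log ((τ * (k * e) + P) * (M - 0 * (k * e)) / ((0 * (k * e) + P) * (M - τ * (k * e)))) +
        (τ - 0) * (1 + l) * e -
      (Real.log ((1 * (k * e) + P) * (M - τ * (k * e)) / ((τ * (k * e) + P) * (M - 1 * (k * e)))) +
        (1 - τ) * (1 + l) * e)
  have h01 : τ0 ≤ 1 := by linarith
  have pos : ∀ τ ∈ Icc τ0 1, 0 < τ * (k * e) + P ∧ 0 < M - τ * (k * e) := fun τ hτ => by
    have : 0 < τ := by linarith [hτ.1]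
    constructor
    · positivity
    · nlinarith [hτ.2]
  have q1 : 0 < M - 0 * (k * e) := by linarith
  have q2 : 0 < 0 * (k * e) + P := by linarith
  have q3 : 0 < M - 1 * (k * e) := by linarith
  have q4 : 0 < 1 * (k * e) + P := by linarith
  have hc : ContinuousOn Φ (Icc τ0 1) := by
    intro τ hτ
    obtain ⟨p1, p2⟩ := pos τ hτ
    refine ContinuousAt.continuousWithinAt (ContinuousAt.sub (ContinuousAt.add
      (ContinuousAt.log ?_ ?_) (by fun_prop)) (ContinuousAt.add (ContinuousAt.log ?_ ?_) (by fun_prop)))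
    · exact ContinuousAt.div (by fun_prop) (by fun_prop) (by positivity)
    · positivity
    · exact ContinuousAt.div (by fun_prop) (by fun_prop) (by positivity)
    · positivity
  have a1 : 0 < Φ 1 := by
    simp only [Φ]
    rw [div_self (by positivity), Real.log_one]
    have : 0 ≤ Real.log ((1 * (k * e) + P) * (M - 0 * (k * e)) /
        ((0 * (k * e) + P) * (M - 1 * (k * e)))) := by
      apply Real.log_nonneg; rw [le_div_iff₀ (by positivity)]; nlinarith [mul_pos hu hP, mul_pos hu hM0]
    nlinarith [mul_pos hl he]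
  have a0 : Φ τ0 < 0 := by
    obtain ⟨p1, p2⟩ := pos τ0 ⟨le_rfl, h01⟩
    have e1 : Φ τ0 = Real.log ((τ0 * (k * e) + P) ^ 2 * (M * (M - k * e)) /
        (P * (k * e + P) * (M - τ0 * (k * e)) ^ 2)) + 2 * (7 / 40) * (1 + l) * e ^ 2 := by
      have q5 : 0 < M - k * e := by linarith
      have q6 : 0 < k * e + P := by linarith
      simp only [Φ, zero_mul, one_mul, sub_zero, zero_add]
      rw [Real.log_div (by positivity) (by positivity), Real.log_div (by positivity) (by positivity),
        Real.log_div (by positivity) (by positivity)]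
      repeat rw [Real.log_mul (by positivity) (by positivity)]
      rw [Real.log_pow, Real.log_pow, hτ0]; push_cast; ring
    have q5 : 0 < M - k * e := by linarith
    have q6 : 0 < k * e + P := by linarith
    have hD : 0 < P * (k * e + P) * (M - τ0 * (k * e)) ^ 2 := by positivity
    have := Real.log_le_sub_one_of_pos (show 0 < (τ0 * (k * e) + P) ^ 2 * (M * (M - k * e)) /
        (P * (k * e + P) * (M - τ0 * (k * e)) ^ 2) by positivity)
    have key : (τ0 * (k * e) + P) ^ 2 * (M * (M - k * e)) /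
        (P * (k * e + P) * (M - τ0 * (k * e)) ^ 2) < 1 - 2 * (7 / 40) * (1 + l) * e ^ 2 := by
      rw [div_lt_iff₀ hD, ← sub_pos]
      have : (1 - 2 * (7 / 40) * (1 + l) * e ^ 2) * (P * (k * e + P) * (M - τ0 * (k * e)) ^ 2) -
          (τ0 * (k * e) + P) ^ 2 * (M * (M - k * e)) = e ^ 2 * ((25881142988364736237675371380923/3124984375031249968750015624996875) * e ^ 0 + (743427192379220371498032206926602860342045407/624995625013124978125021874986875004374999375) * e ^ 1 + (3923290393092146862253722733334194770917691749/7142807143007142607143107142707142907142850000) * e ^ 2 + (-450563312135151894983637894240990469769493654989879/2857120000079999840000199999840000079999977142860000) * e ^ 3 + (-513285599259840700273060744216036318395852276732407/4081600000114285485714571428342857257142824489800000) * e ^ 4 + (-4010048130190103975915490592941504752354359252499/233234285720816313469404081619591843265304256560000) * e ^ 5) := by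
        rw [hτ0, P, M, k, l]; ring
      rw [this]; positivity
    linarith
  obtain ⟨τ, hτ, hΦ⟩ := intermediate_value_Ioo h01 hc (show (0 : ℝ) ∈ Ioo (Φ τ0) (Φ 1) from ⟨a0, a1⟩)
  exact ⟨τ, hτ.1, hτ.2, sub_eq_zero.1 hΦ⟩

theorem final (e τ : ℝ) (he : 0 < e) (he' : e < 1 / 10) (h2 : (0 : ℝ) < (11999983/499999500) * e ^ 0 + (-17291947/3571425) * e ^ 1 + (-851149297850851/457141942857600) * e ^ 2 + (2979997/11428560) * e ^ 3)
    (hτ : 1 / 2 + 7 / 40 * e < τ) (hτ1 : τ < 1) :
    d (3 / 5 + e, l * e) (3 / 5 + e, -(l * e)) <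
      2 * d (3 / 5 + τ * e, τ * (l * e)) (3 / 5 + τ * e, -(τ * (l * e))) := by
  have hl : 0 < l := by norm_num [l]
  have hl' : l < 1 / 100 := by norm_num [l]
  have hη : 0 < l * e := mul_pos hl he
  have hη' : l * e < 1 / 1000 := by nlinarith
  have hτp : 0 < τ := by linarith
  have hs : 0 < τ * (l * e) := mul_pos hτp hη
  have hs' : τ * (l * e) < l * e := by nlinarith
  have hte : τ * e < e := by nlinarith
  have hte' : e / 2 < τ * e := by nlinarith
  set w1 := √(1 - (3 / 5 + e) ^ 2)
  set w := √(1 - (3 / 5 + τ * e) ^ 2)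
  have b1 : 4 / 5 - 3 / 4 * e - 2 * e ^ 2 ≤ w1 := by
    apply Real.le_sqrt_of_sq_le; nlinarith [mul_pos he he, mul_pos he (mul_pos he he)]
  have b2 : w ≤ 4 / 5 - 3 / 8 * e := by
    apply Real.sqrt_le_iff.2; constructor <;> nlinarith
  have b3 : 1 / 2 ≤ w := by apply Real.le_sqrt_of_sq_le; nlinarith
  have hW1 : 0 < 4 / 5 - 3 / 4 * e - 2 * e ^ 2 - l * e := by nlinarith
  have hW : 0 < 4 / 5 - 3 / 8 * e + l * e := by nlinarith
  rw [h_vert _ _ w1 hη (by nlinarith) (Real.sq_sqrt (by nlinarith)),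
    h_vert _ _ w hs (by linarith) (Real.sq_sqrt (by nlinarith))]
  have c1 : Real.log ((w1 + l * e) / (w1 - l * e)) ≤
      2 * (l * e) / (4 / 5 - 3 / 4 * e - 2 * e ^ 2 - l * e) := by
    have p : 0 < w1 - l * e := by linarith
    refine (Real.log_le_sub_one_of_pos (by apply div_pos <;> linarith)).trans ?_
    rw [show (w1 + l * e) / (w1 - l * e) - 1 = 2 * (l * e) / (w1 - l * e) by field_simp; ring]
    apply div_le_div_of_nonneg_left (by linarith) hW1 (by linarith)
  have c2 : 2 * (τ * (l * e)) / (4 / 5 - 3 / 8 * e + l * e) ≤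
      Real.log ((w + τ * (l * e)) / (w - τ * (l * e))) := by
    have p : 0 < w + τ * (l * e) := by linarith
    refine le_trans ?_ (Real.one_sub_inv_le_log_of_pos (by apply div_pos <;> linarith))
    rw [inv_div, show 1 - (w - τ * (l * e)) / (w + τ * (l * e)) =
      2 * (τ * (l * e)) / (w + τ * (l * e)) by field_simp; ring]
    apply div_le_div_of_nonneg_left (by linarith) p (by linarith)
  have c3 : 2 / (4 / 5 - 3 / 4 * e - 2 * e ^ 2 - l * e) + 1 <
      (1 + 2 * (7 / 40) * e) * (2 / (4 / 5 - 3 / 8 * e + l * e) + 1) := by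
    rw [div_add_one hW1.ne', div_add_one hW.ne', ← mul_div_assoc, div_lt_div_iff₀ hW1 hW, ← sub_pos]
    have : (1 + 2 * (7 / 40) * e) * (2 + (4 / 5 - 3 / 8 * e + l * e)) *
        (4 / 5 - 3 / 4 * e - 2 * e ^ 2 - l * e) - (2 + (4 / 5 - 3 / 4 * e - 2 * e ^ 2 - l * e)) *
        (4 / 5 - 3 / 8 * e + l * e) = e * ((11999983/499999500) * e ^ 0 + (-17291947/3571425) * e ^ 1 + (-851149297850851/457141942857600) * e ^ 2 + (2979997/11428560) * e ^ 3) := by rw [l]; ring
    rw [this]; positivity
  have c4 : (1 + 2 * (7 / 40) * e) * (2 / (4 / 5 - 3 / 8 * e + l * e) + 1) ≤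
      2 * τ * (2 / (4 / 5 - 3 / 8 * e + l * e) + 1) :=
    mul_le_mul_of_nonneg_right (by linarith) (by positivity)
  have c5 := mul_lt_mul_of_pos_left (c3.trans_le c4) hη
  have e1 : 2 * (l * e) / (4 / 5 - 3 / 4 * e - 2 * e ^ 2 - l * e) =
      l * e * (2 / (4 / 5 - 3 / 4 * e - 2 * e ^ 2 - l * e)) := by ring
  have e2 : 2 * (τ * (l * e)) / (4 / 5 - 3 / 8 * e + l * e) =
      l * e * (τ * (2 / (4 / 5 - 3 / 8 * e + l * e))) := by ring
  nlinarith

theorem result : ∃ c, InM c ∧ ∀ r > 0, ∃ x y z p q : ℝ × ℝ, InM x ∧ InM y ∧ InM z ∧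
    d c x < r ∧ d c y < r ∧ d c z < r ∧ p ∈ segment ℝ x y ∧ d x p = d p y ∧
    q ∈ segment ℝ x z ∧ d x q = d q z ∧ d y z < 2 * d p q := by
  refine ⟨(3 / 5, 0), by norm_num [InM, nsq], fun r hr => ?_⟩
  have ev : ∀ᶠ e in 𝓝[>] (0 : ℝ), _ ∧ _ :=
    (((ev1.and ev2).and ((ev3 r hr).and (gt_mem_nhds (show (0 : ℝ) < 1 / 10 by norm_num)))).filter_mono
      nhdsWithin_le_nhds).and self_mem_nhdsWithin
  obtain ⟨e, ⟨⟨h1, h2⟩, h3, he'⟩, he⟩ := ev.exists
  have he : 0 < e := he
  obtain ⟨τ, hτ, hτ1, hm⟩ := mid e he he' h1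
  have hl : 0 < l := by norm_num [l]
  have hl' : l < 1 / 100 := by norm_num [l]
  have hη : 0 < l * e := mul_pos hl he
  have hη' : l * e < 1 / 1000 := by nlinarith
  have huM : 1 * (k * e) < M := by norm_num [k, M]; linarith
  have hu : 0 < k * e := mul_pos (by norm_num [k]) he
  have hτM : τ * (k * e) < M := by nlinarith
  have hτp : 0 < τ := by linarith
  have A := fun σ hσ => d_chord σ e 0 1 hσ he le_rfl one_pos huM
  have B := fun σ hσ => d_chord σ e 0 τ hσ he le_rfl hτp hτM
  have C := fun σ hσ => d_chord σ e τ 1 hσ he hτp.le hτ1 huM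
  have A1 := A 1 (by norm_num); have A2 := A (-1) (by norm_num)
  have B1 := B 1 (by norm_num); have B2 := B (-1) (by norm_num)
  have C1 := C 1 (by norm_num); have C2 := C (-1) (by norm_num)
  rw [hm, ← C1] at B1
  rw [hm, ← C2] at B2
  rw [← A1] at h3
  rw [← A1] at A2
  simp only [zero_mul, mul_zero, add_zero, one_mul, neg_mul] at B1 B2 h3 A2
  refine ⟨(3 / 5, 0), (3 / 5 + e, l * e), (3 / 5 + e, -(l * e)), (3 / 5 + τ * e, τ * (l * e)),
    (3 / 5 + τ * e, -(τ * (l * e))), by norm_num [InM, nsq], ?_, ?_, by simpa [d, h] using hr, h3,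
    ?_, ⟨1 - τ, τ, by linarith, hτp.le, by ring, ?_⟩, B1,
    ⟨1 - τ, τ, by linarith, hτp.le, by ring, ?_⟩, ?_, final e τ he he' h2 hτ hτ1⟩
  · simp only [InM, nsq]; nlinarith
  · simp only [InM, nsq]; nlinarith
  · rw [A2]; exact h3
  · ext <;> simp <;> ring
  · ext <;> simp <;> ring
  · simpa only [neg_zero] using B2

end Pool.Agent.Results.MP_b19ca0_gt.NotNPC
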